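import Pool.Agent.K3h14.SW.All
import Pool.Agent.K3h14.SW.EqP

/-!
Self-avoiding walks on `ℤ³`: the number `B n` of `n`-step bridges satisfies
`μ^n exp(-K n^(1/3) exp(K (log log n)^2)) ≤ B n ≤ μ^n` for all `n ≥ 3`.
-/

set_option autoImplicit false

namespace Pool.Agent.Results.MP_794e6e_pr.BridgesOneThird

open Filter Topology

/-- `f` is an `n`-step self-avoiding nearest-neighbour walk on `ℤ³` from `0` -/
def IsSAW (n : ℕ) (f : Fin (n + 1) → (Fin 3 → ℤ)) : Prop :=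
  f 0 = 0 ∧ Function.Injective f ∧
    ∀ i : Fin n, ∑ j : Fin 3, |f i.succ j - f i.castSucc j| = 1

/-- the number of `n`-step self-avoiding walks on `ℤ³` from `0` -/
noncomputable def C (n : ℕ) : ℕ := Nat.card {f : Fin (n + 1) → (Fin 3 → ℤ) // IsSAW n f}

/-- the number of `n`-step bridges on `ℤ³`: the self-avoiding walks `f` from `0` whose first
coordinate satisfies `0 < f i 0 ≤ f n 0` for `1 ≤ i ≤ n` -/
noncomputable def B (n : ℕ) : ℕ :=
  Nat.card {f : Fin (n + 1) → (Fin 3 → ℤ) // IsSAW n f ∧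
    ∀ i : Fin n, 0 < f i.succ 0 ∧ f i.succ 0 ≤ f (Fin.last n) 0}

/-- **Theorem.** On `ℤ³` the limit `μ` of `C n ^ (1/n)` exists, is positive, and there is `K` such
that `μ^n exp(-K n^(1/3) exp(K (log log n)^2)) ≤ B n ≤ μ^n` for all `n ≥ 3`. -/
theorem result : ∃ μ : ℝ, 0 < μ ∧
    Tendsto (fun n : ℕ => (C n : ℝ) ^ (1 / (n : ℝ))) atTop (𝓝 μ) ∧
    ∃ K : ℝ, ∀ n : ℕ, 3 ≤ n →
      μ ^ n * Real.exp (-(K * (n : ℝ) ^ (1 / 3 : ℝ) *
        Real.exp (K * Real.log (Real.log n) ^ 2))) ≤ (B n : ℝ) ∧ (B n : ℝ) ≤ μ ^ n := by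
  have hC : ∀ n, C n = Pool.Agent.H46R2.K3.c n := fun n => Pool.Agent.H46R2.K3.P.card_eq n
  have hB : ∀ n, B n = Pool.Agent.H46R2.K3.b n := fun n => Pool.Agent.K3h14.SW.card_br n
  refine ⟨Pool.Agent.H46R2.K3.mu, lt_of_lt_of_le one_pos Pool.Agent.H46R2.K3.P.one_le_mu, ?_, ?_⟩
  · simpa only [hC] using Pool.Agent.H46R2.K3.P.tendsto_c
  · obtain ⟨K, _, hK⟩ := Pool.Agent.K3h14.SW.hb_bound
    refine ⟨K, fun n hn => ⟨?_, ?_⟩⟩
    · have h1 := hK n hn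
      unfold Pool.Agent.K3h14.SW.hb at h1
      rw [le_div_iff₀ (pow_pos Pool.Agent.K3h14.SW.mu0 n)] at h1
      rw [hB]
      linarith
    · rw [hB]
      exact Pool.Agent.H46R2.K3.P.b_le n

end Pool.Agent.Results.MP_794e6e_pr.BridgesOneThird
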