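import Pool.Agent.K3h54.PS.Z3

/-!
# Self-avoiding walks on `ℤ³`: the asymptotic form and the exponential generating function

The asymptotic form `c_n ~ A μ ^ n n ^ (γ - 1)` of the problem is equivalent to the asymptotic form
of the entire function `E (x) = ∑ c_n x ^ n / n!` on the two halves of the real line. By Kesten's
inequality the numbers `c_n μ ^ (-n)` are regular at the scale `√n`, and the values of `E` on the real
line determine the averages of these numbers at this scale.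
-/

set_option autoImplicit false

open Filter Topology

namespace Pool.Agent.Results.MP_794e6e_pr.ExponentialGeneratingFunction

/-- the number of `n`-step self-avoiding nearest-neighbour walks on `ℤ³` from `0` -/
noncomputable def C (n : ℕ) : ℕ :=
  Nat.card {f : Fin (n + 1) → (Fin 3 → ℤ) //
    f 0 = 0 ∧ Function.Injective f ∧
    ∀ i : Fin n, ∑ j : Fin 3, |f i.succ j - f i.castSucc j| = 1}

/-- the exponential generating function `∑ c_n x ^ n / n!` -/
noncomputable def E (x : ℝ) : ℝ := ∑' n : ℕ, (C n : ℝ) * x ^ n / (n.factorial : ℝ)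

open Pool.Agent.K3h54.PS

lemma C_eq (n : ℕ) : C n = TH966.KO.c n := Pool.Agent.H46R2.K3.P.card_eq n

lemma u_eq (n : ℕ) : u3 n = (C n : ℝ) / TH966.KO.μ ^ n := by rw [C_eq]; rfl

lemma E_eq (x : ℝ) : E x = egf u3 (TH966.KO.μ * x) := by
  unfold E egf tm
  refine tsum_congr fun n => ?_
  have := pow_pos mu_pos n
  rw [u_eq, mul_pow]
  field_simp

lemma E_neg (x : ℝ) : E (-x) = egf u3 (-(TH966.KO.μ * x)) := by rw [E_eq, mul_neg]

/-- the quotients of the two sides -/
lemma quot (γ : ℝ) (n : ℕ) : (C n : ℝ) / (TH966.KO.μ ^ n * (n : ℝ) ^ (γ - 1)) =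
    u3 n / (n : ℝ) ^ (γ - 1) := by rw [u_eq, div_div]

/-- **Theorem.** Let `c_n` be the number of `n`-step self-avoiding walks on `ℤ³`, `μ = lim c_n^(1/n)`,
`3.85 ≤ μ ≤ 5`, and `E (x) = ∑ c_n x ^ n / n!` (an entire function).
In (1)-(3), `γ` is any real number and `A > 0`.
(1) `c_n / (μ^n n^(γ-1)) → A` if and only if, as `x → ∞`,
`E (x) / (e^(μx) (μx)^(γ-1)) → A` and `E (-x) / (e^(μx) (μx)^(γ-1)) → 0`.
(2) For `q = 0, 1`: `c_n / (μ^n n^(γ-1)) → A` along the `n` of parity `q` if and only if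
`(E (x) + (-1)^q E (-x)) / (e^(μx) (μx)^(γ-1)) → A`.
(3) `E (x) / (e^(μx) (μx)^(γ-1)) → A` if and only if `(c_n μ^(-n) + c_(n+1) μ^(-n-1)) / n^(γ-1) → 2 A`;
in this case `0.87 A ≤ c_n / (μ^n n^(γ-1)) ≤ 1.13 A` for all large `n`.
(4) For all real `γ`: `log (c_n / μ^n) / log n → γ - 1` if and only if `log (E (x) / e^(μx)) / log x → γ - 1`.
(5) For `g ≥ 0`: `c_n = O (μ^n n^g)` if and only if `E (x) = O (e^(μx) x^g)`. -/
theorem result : ∃ μ : ℝ, 77 / 20 ≤ μ ∧ μ ≤ 5 ∧
    Tendsto (fun n : ℕ => (C n : ℝ) ^ (1 / (n : ℝ))) atTop (𝓝 μ) ∧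
    (∀ x : ℝ, Summable (fun n : ℕ => (C n : ℝ) * x ^ n / (n.factorial : ℝ))) ∧
    (∀ γ A : ℝ, 0 < A →
      (Tendsto (fun n : ℕ => (C n : ℝ) / (μ ^ n * (n : ℝ) ^ (γ - 1))) atTop (𝓝 A) ↔
        Tendsto (fun x : ℝ => E x / (Real.exp (μ * x) * (μ * x) ^ (γ - 1))) atTop (𝓝 A) ∧
        Tendsto (fun x : ℝ => E (-x) / (Real.exp (μ * x) * (μ * x) ^ (γ - 1))) atTop (𝓝 0)) ∧
      (∀ q : ℕ, q ≤ 1 →
        (Tendsto (fun n : ℕ => (C n : ℝ) / (μ ^ n * (n : ℝ) ^ (γ - 1)))
            (atTop ⊓ 𝓟 {n | n % 2 = q}) (𝓝 A) ↔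
          Tendsto (fun x : ℝ => (E x + (-1) ^ q * E (-x)) /
            (Real.exp (μ * x) * (μ * x) ^ (γ - 1))) atTop (𝓝 A))) ∧
      (Tendsto (fun x : ℝ => E x / (Real.exp (μ * x) * (μ * x) ^ (γ - 1))) atTop (𝓝 A) ↔
        Tendsto (fun n : ℕ => ((C n : ℝ) / μ ^ n + (C (n + 1) : ℝ) / μ ^ (n + 1)) /
          (n : ℝ) ^ (γ - 1)) atTop (𝓝 (2 * A))) ∧
      (Tendsto (fun x : ℝ => E x / (Real.exp (μ * x) * (μ * x) ^ (γ - 1))) atTop (𝓝 A) →
        ∀ᶠ n : ℕ in atTop, 0.87 * A ≤ (C n : ℝ) / (μ ^ n * (n : ℝ) ^ (γ - 1)) ∧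
          (C n : ℝ) / (μ ^ n * (n : ℝ) ^ (γ - 1)) ≤ 1.13 * A)) ∧
    (∀ γ : ℝ, Tendsto (fun n : ℕ => Real.log ((C n : ℝ) / μ ^ n) / Real.log n) atTop (𝓝 (γ - 1)) ↔
      Tendsto (fun x : ℝ => Real.log (E x / Real.exp (μ * x)) / Real.log x) atTop (𝓝 (γ - 1))) ∧
    (∀ g : ℝ, 0 ≤ g →
      ((∃ K : ℝ, ∀ᶠ n : ℕ in atTop, (C n : ℝ) ≤ K * μ ^ n * (n : ℝ) ^ g) ↔
        (∃ K : ℝ, ∀ᶠ x : ℝ in atTop, E x ≤ K * Real.exp (μ * x) * x ^ g))) := by
  obtain ⟨D, R⟩ := rg3
  obtain ⟨B, hpar⟩ := par3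
  have hμ := mu_pos
  have hμ1 := TH966.KO.mu_ge
  refine ⟨TH966.KO.μ, hμ1, TH966.KO.mu_le, ?_, ?_, ?_, ?_, ?_⟩
  · simpa only [C_eq] using TH966.KO.tend
  · intro x
    have := R.adm.summ (TH966.KO.μ * x)
    refine this.congr fun n => ?_
    unfold tm
    have := pow_pos mu_pos n
    rw [u_eq, mul_pow]
    field_simp
  · intro γ A hA
    -- the three forms of the generating function
    have t1 : ∀ l : ℝ, Tendsto (fun x : ℝ => E x / (Real.exp (TH966.KO.μ * x) *
        (TH966.KO.μ * x) ^ (γ - 1))) atTop (𝓝 l) ↔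
        Tendsto (fun X : ℝ => egf u3 X / (Real.exp X * X ^ (γ - 1))) atTop (𝓝 l) := by
      intro l
      rw [← tend_scale hμ (F := fun X => egf u3 X / (Real.exp X * X ^ (γ - 1)))]
      simp_rw [E_eq]
    have t2 : Tendsto (fun x : ℝ => E (-x) / (Real.exp (TH966.KO.μ * x) *
        (TH966.KO.μ * x) ^ (γ - 1))) atTop (𝓝 0) ↔
        Tendsto (fun X : ℝ => egf u3 (-X) / (Real.exp X * X ^ (γ - 1))) atTop (𝓝 0) := by
      rw [← tend_scale hμ (F := fun X => egf u3 (-X) / (Real.exp X * X ^ (γ - 1)))]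
      simp_rw [E_neg]
    simp_rw [quot]
    have hsum : Tendsto (fun x : ℝ => E x / (Real.exp (TH966.KO.μ * x) *
        (TH966.KO.μ * x) ^ (γ - 1))) atTop (𝓝 A) →
        Tendsto (fun n : ℕ => (u3 n + u3 (n + 1)) / (n : ℝ) ^ (γ - 1)) atTop (𝓝 (2 * A)) :=
      fun h => R.sum_of_egf hA ((t1 A).1 h)
    refine ⟨?_, ?_, ?_, ?_⟩
    · rw [t1, t2]
      exact R.all_iff hA
    · intro q hq
      rw [R.cls_iff hq hA]
      have h1 : Tendsto (fun x : ℝ => (E x + (-1) ^ q * E (-x)) / (Real.exp (TH966.KO.μ * x) *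
          (TH966.KO.μ * x) ^ (γ - 1))) atTop (𝓝 A) ↔
          Tendsto (fun X : ℝ => (egf u3 X + (-1) ^ q * egf u3 (-X)) / (Real.exp X * X ^ (γ - 1)))
            atTop (𝓝 A) := by
        rw [← tend_scale hμ (F := fun X => (egf u3 X + (-1) ^ q * egf u3 (-X)) /
          (Real.exp X * X ^ (γ - 1)))]
        simp_rw [E_neg, E_eq]
      rw [h1]
      have e : ∀ X, egf (rs q u3) X / (Real.exp X * X ^ (γ - 1)) =
          (egf u3 X + (-1) ^ q * egf u3 (-X)) / (Real.exp X * X ^ (γ - 1)) / 2 := by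
        intro X
        rw [egf_rs R.adm hq]
        ring
      simp_rw [e]
      constructor
      · intro h
        have := h.mul_const 2
        rw [div_mul_cancel₀ _ (two_ne_zero)] at this
        refine this.congr fun X => ?_
        ring
      · intro h
        exact h.div_const 2
    · have e : ∀ n : ℕ, ((C n : ℝ) / TH966.KO.μ ^ n + (C (n + 1) : ℝ) / TH966.KO.μ ^ (n + 1)) /
          (n : ℝ) ^ (γ - 1) = (u3 n + u3 (n + 1)) / (n : ℝ) ^ (γ - 1) := by
        intro n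
        rw [u_eq, u_eq]
      simp_rw [e]
      exact ⟨hsum, fun h => (t1 A).2 (R.egf_of_sum hA h)⟩
    · intro h
      have h1 := R.amp (β := 5 / TH966.KO.μ) hA (by positivity) (fun ε hε => step3 hε) (hsum h)
        (show 0 < A / 100000 by positivity)
      have hβ : 5 / TH966.KO.μ ≤ 100 / 77 := by
        rw [div_le_div_iff₀ hμ (by norm_num)]
        linarith
      have hβ0 : 0 < 5 / TH966.KO.μ := by positivity
      obtain ⟨β, hβd⟩ : ∃ β : ℝ, β = 5 / TH966.KO.μ := ⟨_, rfl⟩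
      rw [← hβd] at h1 hβ hβ0
      filter_upwards [h1] with n hn
      have k1 : 154 / 177 ≤ 2 / (1 + β) := by
        rw [div_le_div_iff₀ (by norm_num) (by positivity)]
        linarith
      have k2 : 2 * β / (1 + β) ≤ 200 / 177 := by
        rw [div_le_div_iff₀ (by positivity) (by norm_num)]
        linarith
      have k3 := mul_le_mul_of_nonneg_right k1 hA.le
      have k4 := mul_le_mul_of_nonneg_right k2 hA.le
      constructor
      · norm_num
        linarith [hn.1]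
      · norm_num
        linarith [hn.2]
  · intro γ
    have h1 : Tendsto (fun x : ℝ => Real.log (E x / Real.exp (TH966.KO.μ * x)) / Real.log x) atTop
        (𝓝 (γ - 1)) ↔
        Tendsto (fun X : ℝ => Real.log (egf u3 X / Real.exp X) / Real.log X) atTop (𝓝 (γ - 1)) := by
      rw [← tend_scale hμ (F := fun X => Real.log (egf u3 X / Real.exp X) / Real.log X)]
      simp_rw [E_eq]
      have hs := log_scale_tend hμ
      have hev : ∀ᶠ x : ℝ in atTop, 0 < Real.log x ∧ 0 < Real.log (TH966.KO.μ * x) := by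
        filter_upwards [eventually_gt_atTop 1] with x hx
        refine ⟨Real.log_pos hx, Real.log_pos ?_⟩
        nlinarith
      constructor
      · intro h
        have := h.div hs one_ne_zero
        rw [div_one] at this
        refine this.congr' ?_
        filter_upwards [hev] with x hx
        have := hx.1.ne'
        have := hx.2.ne'
        simp only [Pi.div_apply]
        field_simp
      · intro h
        have := h.mul hs
        rw [mul_one] at this
        refine this.congr' ?_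
        filter_upwards [hev] with x hx
        have := hx.1.ne'
        have := hx.2.ne'
        field_simp
    rw [h1]
    simp_rw [← u_eq]
    exact ⟨R.expo_mp, R.expo_mpr hpar⟩
  · intro g hg
    have hr := R.bigO_iff hg
    have hμg : 0 < TH966.KO.μ ^ g := Real.rpow_pos_of_pos hμ g
    have h1 : (∃ K : ℝ, ∀ᶠ n : ℕ in atTop, (C n : ℝ) ≤ K * TH966.KO.μ ^ n * (n : ℝ) ^ g) ↔
        (∃ K : ℝ, ∀ᶠ n : ℕ in atTop, u3 n ≤ K * (n : ℝ) ^ g) := by
      refine exists_congr fun K => eventually_congr (Eventually.of_forall fun n => ?_)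
      rw [u_eq, div_le_iff₀ (pow_pos hμ n)]
      rw [show K * (n : ℝ) ^ g * TH966.KO.μ ^ n = K * TH966.KO.μ ^ n * (n : ℝ) ^ g by ring]
    rw [h1, hr]
    constructor
    · rintro ⟨K, hK⟩
      refine ⟨K * TH966.KO.μ ^ g, ?_⟩
      have h2 := (tendsto_id.const_mul_atTop hμ).eventually hK
      filter_upwards [h2, eventually_gt_atTop 0] with x hx hx0
      rw [E_eq]
      refine hx.trans (le_of_eq ?_)
      simp only [id]
      rw [Real.mul_rpow hμ.le hx0.le]
      ring
    · rintro ⟨K, hK⟩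
      refine ⟨K / TH966.KO.μ ^ g, ?_⟩
      have h2 := (tendsto_id.atTop_div_const hμ).eventually hK
      filter_upwards [h2, eventually_gt_atTop 0] with X hX hX0
      simp only [id] at hX
      rw [E_eq, mul_div_cancel₀ _ hμ.ne', Real.div_rpow hX0.le hμ.le] at hX
      refine hX.trans (le_of_eq ?_)
      ring

end Pool.Agent.Results.MP_794e6e_pr.ExponentialGeneratingFunction
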