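import Pool.Agent.K3h14.SW.Mod
import Pool.Agent.H46R2.K3.EQ

/-!
Self-avoiding walks on `ℤ³`: the modulus of continuity of `n ↦ log (c_n / μ^n)`.
-/

set_option autoImplicit false

namespace Pool.Agent.Results.MP_794e6e_pr.ModulusOfContinuity

open Filter Topology

/-- the number of `n`-step self-avoiding nearest-neighbour walks on `ℤ³` from `0` -/
noncomputable def C (n : ℕ) : ℕ :=
  Nat.card {f : Fin (n + 1) → (Fin 3 → ℤ) //
    f 0 = 0 ∧ Function.Injective f ∧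
    ∀ i : Fin n, ∑ j : Fin 3, |f i.succ j - f i.castSucc j| = 1}

/-- **Theorem.** On `ℤ³` the limit `μ` of `C n ^ (1/n)` exists, is positive, and there is `K` such
that for all `n ≥ 3` and `m ≥ 1`, with `p = m mod 2` and `E = exp (K (log log (n+m))^2)`,
`|log (C (n+m) / (μ^m C n))| ≤ K (p + min (m^(1/3)) (m n^(-2/5)) E)`. -/
theorem result : ∃ μ : ℝ, 0 < μ ∧
    Tendsto (fun n : ℕ => (C n : ℝ) ^ (1 / (n : ℝ))) atTop (𝓝 μ) ∧
    ∃ K : ℝ, ∀ n m : ℕ, 3 ≤ n → 1 ≤ m →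
      |Real.log ((C (n + m) : ℝ) / (μ ^ m * (C n : ℝ)))| ≤ K * (((m % 2 : ℕ) : ℝ) +
        min ((m : ℝ) ^ (1 / 3 : ℝ)) ((m : ℝ) * (n : ℝ) ^ (-(2 / 5 : ℝ))) *
          Real.exp (K * Real.log (Real.log ((n + m : ℕ) : ℝ)) ^ 2)) := by
  have hC : ∀ n, C n = Pool.Agent.H46R2.K3.c n := fun n => Pool.Agent.H46R2.K3.P.card_eq n
  refine ⟨Pool.Agent.H46R2.K3.mu, lt_of_lt_of_le one_pos Pool.Agent.H46R2.K3.P.one_le_mu, ?_, ?_⟩
  · simpa only [hC] using Pool.Agent.H46R2.K3.P.tendsto_c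
  · obtain ⟨K, _, hK⟩ := Pool.Agent.K3h14.SW.modulus
    refine ⟨K, fun n m hn hm => ?_⟩
    have h1 := hK n m hn hm
    have hmu := Pool.Agent.K3h14.SW.mu0
    have hn0 := Pool.Agent.K3h14.SW.c_pos n
    have hnm := Pool.Agent.K3h14.SW.c_pos (n + m)
    have e : Real.log ((C (n + m) : ℝ) / (Pool.Agent.H46R2.K3.mu ^ m * (C n : ℝ))) =
        Pool.Agent.K3h14.SW.hh (n + m) - Pool.Agent.K3h14.SW.hh n := by
      unfold Pool.Agent.K3h14.SW.hh
      rw [hC, hC, Real.log_div hnm.ne' (by positivity), Real.log_mul (by positivity) hn0.ne',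
        Real.log_pow]
      push_cast
      ring
    rw [e]
    exact h1

end Pool.Agent.Results.MP_794e6e_pr.ModulusOfContinuity
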