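import Pool.Agent.K3h54.PS.Swin3

/-!
# Self-avoiding walks on `ℤ³`: short windows of lengths decide the asymptotic form

By Kesten's inequality the numbers `c_n μ ^ (-n)` are logarithmically convex up to a bounded factor
on windows of lengths of size `√n`. So the asymptotic form `c_n ~ A μ ^ n n ^ (γ - 1)` of the problem
can be read off from few lengths in each window of size `o(√n)`, or from the averages over such
windows (up to the parity), and the exponent from windows of size `o(√(n log n))`.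
-/

set_option autoImplicit false

open Filter Topology

namespace Pool.Agent.Results.MP_794e6e_pr.ShortWindows

/-- the number of `n`-step self-avoiding nearest-neighbour walks on `ℤ³` from `0` -/
noncomputable def C (n : ℕ) : ℕ :=
  Nat.card {f : Fin (n + 1) → (Fin 3 → ℤ) //
    f 0 = 0 ∧ Function.Injective f ∧
    ∀ i : Fin n, ∑ j : Fin 3, |f i.succ j - f i.castSucc j| = 1}

open Pool.Agent.K3h54.PS

lemma C_eq (n : ℕ) : C n = TH966.KO.c n := Pool.Agent.H46R2.K3.P.card_eq n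

lemma u_eq (n : ℕ) : u3 n = (C n : ℝ) / TH966.KO.μ ^ n := by rw [C_eq]; rfl

/-- the quotients of the two sides -/
lemma quot (γ : ℝ) (n : ℕ) : (C n : ℝ) / (TH966.KO.μ ^ n * (n : ℝ) ^ (γ - 1)) =
    u3 n / (n : ℝ) ^ (γ - 1) := by rw [u_eq, div_div]

/-- **Theorem.** Let `c_n` be the number of `n`-step self-avoiding walks on `ℤ³`, `μ = lim c_n^(1/n)`,
`3.85 ≤ μ ≤ 5`, and `Q_γ (n) = c_n / (μ^n n^(γ-1))`.
(1) There is `K` with `c_n² ≤ e^(K j² / n) c_(n-2j) c_(n+2j)` for all large `n` and all `j < n / 4`.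
(2) Let `A > 0` and `q ∈ {0, 1}`. If for every `δ > 0` and all large `n` the window `[n, n + δ √n]`
contains an `m ≡ q` mod 2 with `Q_γ (m) ≤ A + δ` and an `m ≡ q` mod 2 with `Q_γ (m) ≥ A - δ`, then
`Q_γ (n) → A` along all `n ≡ q`.
(3) If `Q_γ → A > 0` along a set `S` of lengths (of any parities) that meets each window
`[n, n + δ √n]`, `n ≥ n_0 (δ)`, then `0.77 A - ε ≤ Q_γ (n) ≤ (100/77) A + ε` for every `ε > 0` and all
large `n`.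
(4) Let `γ ≥ 1`, `A > 0`. If for every `δ > 0` the average of `c_m μ^(-m)` over the
`n ≤ m < n + ⌊δ √n⌋`, divided by `n^(γ-1)`, tends to `A`, then
`(c_n μ^(-n) + c_(n+1) μ^(-n-1)) / n^(γ-1) → 2 A`.
(5) If for every `δ > 0` and all large `n` the window `[n, n + δ √(n log n)]` contains an `m` with
`log (c_m / μ^m) / log m ≤ γ - 1 + δ` and an `m` with `log (c_m / μ^m) / log m ≥ γ - 1 - δ`, then
`log (c_n / μ^n) / log n → γ - 1`. -/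
theorem result : ∃ μ : ℝ, 77 / 20 ≤ μ ∧ μ ≤ 5 ∧
    Tendsto (fun n : ℕ => (C n : ℝ) ^ (1 / (n : ℝ))) atTop (𝓝 μ) ∧
    (∃ K : ℝ, ∀ᶠ n : ℕ in atTop, ∀ j : ℕ, 4 * j < n →
      (C n : ℝ) ^ 2 ≤ Real.exp (K * (j : ℝ) ^ 2 / n) * ((C (n - 2 * j) : ℝ) * (C (n + 2 * j) : ℝ))) ∧
    (∀ γ A : ℝ, 0 < A → ∀ q : ℕ, q ≤ 1 →
      (∀ δ : ℝ, 0 < δ → ∀ᶠ n : ℕ in atTop,
        (∃ m : ℕ, n ≤ m ∧ (m : ℝ) ≤ n + δ * √(n : ℝ) ∧ m % 2 = q ∧
          (C m : ℝ) / (μ ^ m * (m : ℝ) ^ (γ - 1)) ≤ A + δ) ∧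
        (∃ m : ℕ, n ≤ m ∧ (m : ℝ) ≤ n + δ * √(n : ℝ) ∧ m % 2 = q ∧
          A - δ ≤ (C m : ℝ) / (μ ^ m * (m : ℝ) ^ (γ - 1)))) →
      Tendsto (fun n : ℕ => (C n : ℝ) / (μ ^ n * (n : ℝ) ^ (γ - 1)))
        (atTop ⊓ 𝓟 {n | n % 2 = q}) (𝓝 A)) ∧
    (∀ γ A : ℝ, 0 < A → ∀ S : Set ℕ,
      (∀ δ : ℝ, 0 < δ → ∀ᶠ n : ℕ in atTop, ∃ m ∈ S, n ≤ m ∧ (m : ℝ) ≤ n + δ * √(n : ℝ)) →
      Tendsto (fun n : ℕ => (C n : ℝ) / (μ ^ n * (n : ℝ) ^ (γ - 1))) (atTop ⊓ 𝓟 S) (𝓝 A) →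
      ∀ ε : ℝ, 0 < ε → ∀ᶠ n : ℕ in atTop,
        77 / 100 * A - ε ≤ (C n : ℝ) / (μ ^ n * (n : ℝ) ^ (γ - 1)) ∧
        (C n : ℝ) / (μ ^ n * (n : ℝ) ^ (γ - 1)) ≤ 100 / 77 * A + ε) ∧
    (∀ γ A : ℝ, 1 ≤ γ → 0 < A →
      (∀ δ : ℝ, 0 < δ → Tendsto (fun n : ℕ =>
        (∑ m ∈ Finset.Ico n (n + ⌊δ * √(n : ℝ)⌋₊), (C m : ℝ) / μ ^ m) /
          (δ * √(n : ℝ) * (n : ℝ) ^ (γ - 1))) atTop (𝓝 A)) →
      Tendsto (fun n : ℕ => ((C n : ℝ) / μ ^ n + (C (n + 1) : ℝ) / μ ^ (n + 1)) /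
          (n : ℝ) ^ (γ - 1)) atTop (𝓝 (2 * A))) ∧
    (∀ γ : ℝ, (∀ δ : ℝ, 0 < δ → ∀ᶠ n : ℕ in atTop,
        (∃ m : ℕ, n ≤ m ∧ (m : ℝ) ≤ n + δ * √(n * Real.log n) ∧
          Real.log ((C m : ℝ) / μ ^ m) / Real.log m ≤ γ - 1 + δ) ∧
        (∃ m : ℕ, n ≤ m ∧ (m : ℝ) ≤ n + δ * √(n * Real.log n) ∧
          γ - 1 - δ ≤ Real.log ((C m : ℝ) / μ ^ m) / Real.log m)) →
      Tendsto (fun n : ℕ => Real.log ((C n : ℝ) / μ ^ n) / Real.log n) atTop (𝓝 (γ - 1))) := by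
  obtain ⟨D, R⟩ := rg3
  obtain ⟨B, hpar⟩ := par3
  have hμ := mu_pos
  have hμ1 := TH966.KO.mu_ge
  refine ⟨TH966.KO.μ, hμ1, TH966.KO.mu_le, ?_, ?_, ?_, ?_, ?_, ?_⟩
  · simpa only [C_eq] using TH966.KO.tend
  · obtain ⟨N0, h⟩ := R.three'
    refine ⟨8 * D, ?_⟩
    filter_upwards [eventually_ge_atTop N0] with n hn j hj
    have h1 := h n hn j hj
    rw [u_eq, u_eq, u_eq] at h1
    have e : TH966.KO.μ ^ (n - 2 * j) * TH966.KO.μ ^ (n + 2 * j) = (TH966.KO.μ ^ n) ^ 2 := by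
      rw [← pow_add, ← pow_mul]
      congr 1
      omega
    have e1 : (C (n - 2 * j) : ℝ) / TH966.KO.μ ^ (n - 2 * j) *
        ((C (n + 2 * j) : ℝ) / TH966.KO.μ ^ (n + 2 * j)) =
        ((C (n - 2 * j) : ℝ) * (C (n + 2 * j) : ℝ)) / (TH966.KO.μ ^ n) ^ 2 := by
      rw [div_mul_div_comm, e]
    rw [e1, div_pow, ← mul_div_assoc] at h1
    exact (div_le_div_iff_of_pos_right (by positivity)).1 h1
  · intro γ A hA q hq h
    simp_rw [quot] at h ⊢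
    exact R.win_tend hq hA h
  · intro γ A hA S hS h ε hε
    simp_rw [quot] at h ⊢
    have hβ : 5 / TH966.KO.μ ≤ 100 / 77 := by
      rw [div_le_div_iff₀ hμ (by norm_num)]
      linarith
    have hβ0 : 0 < 5 / TH966.KO.μ := by positivity
    have hβ1 : 1 ≤ 5 / TH966.KO.μ := by
      rw [one_le_div hμ]
      exact TH966.KO.mu_le
    have h1 := R.both hA hβ1 (fun ε hε => step3 hε) hS h hε
    obtain ⟨β, hβd⟩ : ∃ β : ℝ, β = 5 / TH966.KO.μ := ⟨_, rfl⟩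
    rw [← hβd] at h1 hβ hβ0
    filter_upwards [h1] with n hn
    have k1 : 77 / 100 * A ≤ A / β := by
      rw [le_div_iff₀ hβ0]
      nlinarith
    have k2 : A * β ≤ 100 / 77 * A := by nlinarith
    exact ⟨by linarith [hn.1], by linarith [hn.2]⟩
  · intro γ A hγ hA h
    simp_rw [← u_eq] at h ⊢
    exact R.avg_tend (by linarith) hA h
  · intro γ h
    simp_rw [← u_eq] at h ⊢
    exact R.expo_win hpar h

end Pool.Agent.Results.MP_794e6e_pr.ShortWindows
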